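import Pool.Agent.Helper92.PW.St

/-!
# Project PW (MP_ad0dc2_nt), module LN3: a line contains at most three integral solutions
-/

set_option autoImplicit false

open Finset

namespace Pool.Agent.Helper44.PW

open Pool.Agent.Helper92.PW

theorem exS (e C : Pt) (hC : C ≠ 0) (h1 : e.2.1 * C.2.2 = e.2.2 * C.2.1) (h2 : e.2.2 * C.1 = e.1 * C.2.2)
    (h3 : e.1 * C.2.1 = e.2.1 * C.1) :
    ∃ s : ℚ, (e.1 : ℚ) = s * C.1 ∧ (e.2.1 : ℚ) = s * C.2.1 ∧ (e.2.2 : ℚ) = s * C.2.2 := by
  have q1 : (e.2.1 : ℚ) * C.2.2 = e.2.2 * C.2.1 := by exact_mod_cast h1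
  have q2 : (e.2.2 : ℚ) * C.1 = e.1 * C.2.2 := by exact_mod_cast h2
  have q3 : (e.1 : ℚ) * C.2.1 = e.2.1 * C.1 := by exact_mod_cast h3
  by_cases c1 : C.1 = 0
  · by_cases c2 : C.2.1 = 0
    · have c3 : C.2.2 ≠ 0 := by
        intro c3
        exact hC (Prod.ext c1 (Prod.ext c2 c3))
      have c3' : (C.2.2 : ℚ) ≠ 0 := by exact_mod_cast c3
      refine ⟨e.2.2 / C.2.2, ?_, ?_, ?_⟩
      · field_simp
        linarith
      · field_simp
        linarith
      · field_simp
    · have c2' : (C.2.1 : ℚ) ≠ 0 := by exact_mod_cast c2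
      refine ⟨e.2.1 / C.2.1, ?_, ?_, ?_⟩
      · field_simp
        linarith
      · field_simp
      · field_simp
        linarith
  · have c1' : (C.1 : ℚ) ≠ 0 := by exact_mod_cast c1
    refine ⟨e.1 / C.1, ?_, ?_, ?_⟩
    · field_simp
    · field_simp
      linarith
    · field_simp
      linarith

theorem hLN3 (h1 : StPOL) (h2 : StRC) : StLN3 := by
  intro k hk N M A hcr S hS
  by_contra hcard
  have hcard4 : 4 ≤ S.card := by omega
  obtain ⟨p0, hp0⟩ : S.Nonempty := by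
    rw [← Finset.card_pos]
    omega
  set C : Pt := crs N M with hC
  have hC1 : C.1 = N.2.1 * M.2.2 - N.2.2 * M.2.1 := rfl
  have hC2 : C.2.1 = N.2.2 * M.1 - N.1 * M.2.2 := rfl
  have hC3 : C.2.2 = N.1 * M.2.1 - N.2.1 * M.1 := rfl
  have hex : ∀ p : Pt, ∃ s : ℚ, p ∈ S → (p.1 : ℚ) = p0.1 + s * C.1 ∧ (p.2.1 : ℚ) = p0.2.1 + s * C.2.1 ∧
      (p.2.2 : ℚ) = p0.2.2 + s * C.2.2 := by
    intro p
    by_cases hp : p ∈ S
    · obtain ⟨-, hN, hM⟩ := hS p hp
      obtain ⟨-, hN0, hM0⟩ := hS p0 hp0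
      simp only [dot] at hN hM hN0 hM0
      have eN : N.1 * (p.1 - p0.1) + N.2.1 * (p.2.1 - p0.2.1) + N.2.2 * (p.2.2 - p0.2.2) = 0 := by
        linear_combination hN - hN0
      have eM : M.1 * (p.1 - p0.1) + M.2.1 * (p.2.1 - p0.2.1) + M.2.2 * (p.2.2 - p0.2.2) = 0 := by
        linear_combination hM - hM0
      obtain ⟨s, s1, s2, s3⟩ := exS (p.1 - p0.1, p.2.1 - p0.2.1, p.2.2 - p0.2.2) C hcr
        (by
          simp only [hC2, hC3]
          linear_combination N.1 * eM - M.1 * eN)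
        (by
          simp only [hC1, hC3]
          linear_combination N.2.1 * eM - M.2.1 * eN)
        (by
          simp only [hC1, hC2]
          linear_combination N.2.2 * eM - M.2.2 * eN)
      refine ⟨s, fun _ => ?_⟩
      push_cast at s1 s2 s3
      refine ⟨by linarith, by linarith, by linarith⟩
    · exact ⟨0, fun h => absurd h hp⟩
  choose s hs using hex
  have hinj : Set.InjOn s S := by
    intro p hp q hq hpq
    obtain ⟨a1, a2, a3⟩ := hs p hp
    obtain ⟨b1, b2, b3⟩ := hs q hq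
    rw [hpq] at a1 a2 a3
    have e1 : (p.1 : ℚ) = q.1 := by rw [a1, b1]
    have e2 : (p.2.1 : ℚ) = q.2.1 := by rw [a2, b2]
    have e3 : (p.2.2 : ℚ) = q.2.2 := by rw [a3, b3]
    exact Prod.ext (by exact_mod_cast e1) (Prod.ext (by exact_mod_cast e2) (by exact_mod_cast e3))
  let li : ℚ → ℚ → Polynomial ℚ := fun a b => Polynomial.C a + Polynomial.C b * Polynomial.X
  have hdeg : ∀ a b, (li a b).natDegree ≤ 1 := by
    intro a b
    simp only [li]
    compute_degree
  have hev : ∀ a b t, (li a b).eval t = a + t * b := by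
    intro a b t
    simp only [li, Polynomial.eval_add, Polynomial.eval_mul, Polynomial.eval_C, Polynomial.eval_X]
    ring
  have hco : ∀ a b, (li a b).natDegree = 0 → b = 0 := by
    intro a b h
    have h3 : (li a b).coeff 1 = 0 := Polynomial.coeff_eq_zero_of_natDegree_lt (by omega)
    simpa [li] using h3
  set x := li (p0.1 : ℚ) (C.1 : ℚ) with hx
  set y := li (p0.2.1 : ℚ) (C.2.1 : ℚ) with hy
  set z := li (p0.2.2 : ℚ) (C.2.2 : ℚ) with hz
  have hx1 : x.natDegree ≤ 1 := hdeg _ _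
  have hy1 : y.natDegree ≤ 1 := hdeg _ _
  have hz1 : z.natDegree ≤ 1 := hdeg _ _
  have hp3 : ∀ w : Polynomial ℚ, w.natDegree ≤ 1 → (w ^ 3).natDegree ≤ 3 := by
    intro w hw
    refine le_trans Polynomial.natDegree_pow_le ?_
    omega
  have hf : x ^ 3 + y ^ 3 + z ^ 3 - Polynomial.C (k : ℚ) = 0 := by
    apply Polynomial.eq_zero_of_natDegree_lt_card_of_eval_eq_zero' _ (S.image s)
    · intro t ht
      obtain ⟨p, hp, rfl⟩ := Finset.mem_image.1 ht
      obtain ⟨a1, a2, a3⟩ := hs p hp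
      have hFm := (hS p hp).1
      simp only [Fm] at hFm
      have hF : (p.1 : ℚ) ^ 3 + (p.2.1 : ℚ) ^ 3 + (p.2.2 : ℚ) ^ 3 = k := by exact_mod_cast hFm
      rw [Polynomial.eval_sub, Polynomial.eval_add, Polynomial.eval_add, Polynomial.eval_pow,
        Polynomial.eval_pow, Polynomial.eval_pow, Polynomial.eval_C, hx, hy, hz, hev, hev, hev,
        ← a1, ← a2, ← a3, hF, sub_self]
    · rw [Finset.card_image_of_injOn hinj]
      have h3 : (x ^ 3 + y ^ 3 + z ^ 3 - Polynomial.C (k : ℚ)).natDegree ≤ 3 := by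
        have h4 : (x ^ 3 + y ^ 3 + z ^ 3).natDegree ≤ 3 :=
          Polynomial.natDegree_add_le_of_degree_le
            (Polynomial.natDegree_add_le_of_degree_le (hp3 x hx1) (hp3 y hy1)) (hp3 z hz1)
        have h5 : (Polynomial.C (k : ℚ)).natDegree ≤ 3 := by
          rw [Polynomial.natDegree_C]
          omega
        exact le_trans (Polynomial.natDegree_sub_le_of_le h4 h5) (by norm_num)
      omega
  have hsum : x ^ 3 + y ^ 3 + z ^ 3 = Polynomial.C (k : ℚ) := sub_eq_zero.1 hf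
  have hnc : ∀ r : ℚ, r ^ 3 ≠ (k : ℚ) := by
    intro r h
    apply h2 k 1 hk one_ne_zero r
    rw [h]
    push_cast
    ring
  obtain ⟨d1, d2, d3⟩ := h1 (k : ℚ) hnc x y z (by omega) (by omega) (by omega) hsum
  have c1 := hco _ _ d1
  have c2 := hco _ _ d2
  have c3 := hco _ _ d3
  apply hcr
  exact Prod.ext (by exact_mod_cast c1) (Prod.ext (by exact_mod_cast c2) (by exact_mod_cast c3))

end Pool.Agent.Helper44.PW
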